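import Mathlib
import Pool.Agent.K3h56.E2.Stm
import Pool.Agent.K3h25.RS.Trans
import Pool.Agent.K3h30.RS.Act

/-! Project E2 (helper56), bricks FROB and FINW: common lemmas. -/

set_option autoImplicit false
set_option linter.unusedSectionVars false

open NumberField IsDedekindDomain

noncomputable section

namespace Pool.Agent.K3h72.E2

open Pool.Agent.K3h30.RS Pool.Agent.K3h56.E2

theorem lies {F H : Type} [Field F] [NumberField F] [Field H] [NumberField H] [Algebra F H]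
    {v : HeightOneSpectrum (𝓞 F)} {w : HeightOneSpectrum (𝓞 H)} (hw : Above {v} w) :
    w.asIdeal.comap (algebraMap (𝓞 F) (𝓞 H)) = v.asIdeal := above_singleton.1 hw

theorem mem_iff {F H : Type} [Field F] [NumberField F] [Field H] [NumberField H] [Algebra F H]
    {v : HeightOneSpectrum (𝓞 F)} {w : HeightOneSpectrum (𝓞 H)} (hw : Above {v} w) (x : 𝓞 F) :
    algebraMap (𝓞 F) (𝓞 H) x ∈ w.asIdeal ↔ x ∈ v.asIdeal := by
  rw [← lies hw]
  rfl

theorem one_lt_norm {F : Type} [Field F] [NumberField F] (v : HeightOneSpectrum (𝓞 F)) :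
    1 < Ideal.absNorm v.asIdeal := by
  rw [Nat.one_lt_iff_ne_zero_and_ne_one]
  refine ⟨fun h => v.ne_bot (Ideal.absNorm_eq_zero_iff.1 h), fun h => ?_⟩
  exact v.isPrime.ne_top (Ideal.absNorm_eq_one_iff.1 h)

theorem fixes_mem {H G : Type} [Field H] [NumberField H]
    [CommGroup G] [MulSemiringAction G H] {w : HeightOneSpectrum (𝓞 H)} {γ : G}
    (h : Fixes (Sum.inr w : Place H) γ) (x : 𝓞 H) : γ • x ∈ w.asIdeal ↔ x ∈ w.asIdeal := by
  have h1 : HeightOneSpectrum.adicAbv H w (γ • (x : H)) = HeightOneSpectrum.adicAbv H w x :=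
    h (x : H)
  have h2 : ∀ y : 𝓞 H, HeightOneSpectrum.adicAbv H w (y : H) < 1 ↔ y ∈ w.asIdeal := fun y =>
    w.adicAbv_coe_lt_one_iff (HeightOneSpectrum.one_lt_absNorm_nnreal w) y
  rw [← h2, ← h2]
  have h3 : ((γ • x : 𝓞 H) : H) = γ • (x : H) := rfl
  rw [h3, h1]

theorem frob_mem {F H G : Type} [Field F] [NumberField F] [Field H] [NumberField H] [Algebra F H]
    [CommGroup G] [MulSemiringAction G H] {v : HeightOneSpectrum (𝓞 F)} {g : G}
    (hg : IsFrob (H := H) v g) {w : HeightOneSpectrum (𝓞 H)} (hw : Above {v} w) (x : 𝓞 H) :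
    g • x ∈ w.asIdeal ↔ x ∈ w.asIdeal := by
  have h : g • x - x ^ (Ideal.absNorm v.asIdeal) ∈ w.asIdeal := by
    rw [← HeightOneSpectrum.valuation_lt_one_iff_mem (K := H)]
    exact hg w hw x
  constructor
  · intro hx
    have h1 := w.asIdeal.sub_mem hx h
    rw [sub_sub_cancel] at h1
    exact w.isPrime.mem_of_pow_mem _ h1
  · intro hx
    have h1 : x ^ (Ideal.absNorm v.asIdeal) ∈ w.asIdeal :=
      w.asIdeal.pow_mem_of_mem hx _ (zero_lt_one.trans (one_lt_norm v))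
    have h2 := w.asIdeal.add_mem h h1
    rwa [sub_add_cancel] at h2

section tower

variable {F K H : Type} [Field F] [NumberField F] [Field K] [NumberField K] [Field H]
  [NumberField H] [Algebra F K] [Algebra K H] [Algebra F H] [IsScalarTower F K H]

theorem above_mid {v : HeightOneSpectrum (𝓞 F)} {P : HeightOneSpectrum (𝓞 K)}
    {w : HeightOneSpectrum (𝓞 H)} (hw : Above {v} w) (hP : Above {P} w) : Above {v} P := by
  rw [above_singleton, ← lies hP, Ideal.comap_comap, ← IsScalarTower.algebraMap_eq]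
  exact lies hw

theorem not_ram {v : HeightOneSpectrum (𝓞 F)} {P : HeightOneSpectrum (𝓞 K)}
    {w : HeightOneSpectrum (𝓞 H)} (hP : Above {P} w)
    (hsq : Squarefree (v.asIdeal.map (algebraMap (𝓞 F) (𝓞 H))))
    (hr : v.asIdeal.map (algebraMap (𝓞 F) (𝓞 K)) = P.asIdeal ^ 2) : False := by
  have h1 : v.asIdeal.map (algebraMap (𝓞 F) (𝓞 H)) =
      P.asIdeal.map (algebraMap (𝓞 K) (𝓞 H)) * P.asIdeal.map (algebraMap (𝓞 K) (𝓞 H)) := by
    rw [IsScalarTower.algebraMap_eq (𝓞 F) (𝓞 K) (𝓞 H), ← Ideal.map_map, hr, Ideal.map_pow,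
      pow_two]
  have h2 : IsUnit (P.asIdeal.map (algebraMap (𝓞 K) (𝓞 H))) := hsq _ (by rw [h1])
  have h3 : P.asIdeal.map (algebraMap (𝓞 K) (𝓞 H)) ≤ w.asIdeal :=
    Ideal.map_le_iff_le_comap.2 (lies hP).ge
  rw [Ideal.isUnit_iff] at h2
  rw [h2] at h3
  exact w.isPrime.ne_top (top_le_iff.1 h3)

end tower

theorem card_le {K : Type} [Field K] [NumberField K] (P : HeightOneSpectrum (𝓞 K)) (N : ℕ)
    (hN : 1 < N) (h : ∀ x : 𝓞 K, x ^ N - x ∈ P.asIdeal) : Ideal.absNorm P.asIdeal ≤ N := by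
  classical
  haveI := P.isMaximal
  let _ : Field (𝓞 K ⧸ P.asIdeal) := Ideal.Quotient.field P.asIdeal
  have hf : Finite (𝓞 K ⧸ P.asIdeal) := Ideal.finiteQuotientOfFreeOfNeBot _ P.ne_bot
  let _ := Fintype.ofFinite (𝓞 K ⧸ P.asIdeal)
  have h1 : Ideal.absNorm P.asIdeal = Fintype.card (𝓞 K ⧸ P.asIdeal) := by
    rw [← Nat.card_eq_fintype_card]
    rfl
  have h0 : (Polynomial.X ^ N - Polynomial.X : Polynomial (𝓞 K ⧸ P.asIdeal)) ≠ 0 :=
    FiniteField.X_pow_card_sub_X_ne_zero _ hN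
  have hd : (Polynomial.X ^ N - Polynomial.X : Polynomial (𝓞 K ⧸ P.asIdeal)).natDegree = N :=
    FiniteField.X_pow_card_sub_X_natDegree_eq _ hN
  have h2 : (Finset.univ : Finset (𝓞 K ⧸ P.asIdeal)) ⊆
      (Polynomial.X ^ N - Polynomial.X : Polynomial (𝓞 K ⧸ P.asIdeal)).roots.toFinset := by
    intro y _
    rw [Multiset.mem_toFinset, Polynomial.mem_roots h0, Polynomial.IsRoot.def]
    obtain ⟨x, rfl⟩ := Ideal.Quotient.mk_surjective y
    rw [Polynomial.eval_sub, Polynomial.eval_pow, Polynomial.eval_X, ← map_pow, ← map_sub,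
      Ideal.Quotient.eq_zero_iff_mem]
    exact h x
  rw [h1, ← Finset.card_univ]
  refine (Finset.card_le_card h2).trans ((Multiset.toFinset_card_le _).trans ?_)
  exact (Polynomial.card_roots' _).trans hd.le

section dict

variable {F H G K : Type} [Field F] [NumberField F] [Field H] [NumberField H] [Algebra F H]
  [CommGroup G] [MulSemiringAction G H] [Field K] [NumberField K] [Algebra F K] [Algebra K H]
  {τ : K ≃ₐ[F] K} {χ : G →* ℂˣ}

/-- `τ` on the integers -/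
def tr (τ : K ≃ₐ[F] K) : 𝓞 K →+* 𝓞 K := RingOfIntegers.mapRingHom (τ : K →+* K)

theorem tr_coe (τ : K ≃ₐ[F] K) (x : 𝓞 K) : ((tr τ x : 𝓞 K) : K) = τ (x : K) := rfl

theorem tr_surj (τ : K ≃ₐ[F] K) (x : 𝓞 K) : ∃ y, tr τ y = x := by
  refine ⟨RingOfIntegers.mapRingHom (τ.symm : K →+* K) x, ?_⟩
  apply RingOfIntegers.ext
  rw [tr_coe]
  exact τ.apply_symm_apply _

theorem neg_int (D : Dict F H G K τ χ) {γ : G} (hγ : χ γ ≠ 1) (x : 𝓞 K) :
    algebraMap (𝓞 K) (𝓞 H) (tr τ x) = γ • algebraMap (𝓞 K) (𝓞 H) x := by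
  apply RingOfIntegers.ext
  exact (D.neg γ hγ (x : K)).symm

theorem one_int (D : Dict F H G K τ χ) {γ : G} (hγ : χ γ = 1) (x : 𝓞 K) :
    γ • algebraMap (𝓞 K) (𝓞 H) x = algebraMap (𝓞 K) (𝓞 H) x := by
  apply RingOfIntegers.ext
  exact D.one γ hγ (x : K)

theorem tau_mem (D : Dict F H G K τ χ) {P : HeightOneSpectrum (𝓞 K)}
    {w : HeightOneSpectrum (𝓞 H)} (hP : Above {P} w) {γ : G} (hγ : χ γ ≠ 1)
    (hfix : ∀ y : 𝓞 H, γ • y ∈ w.asIdeal ↔ y ∈ w.asIdeal) (x : 𝓞 K) :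
    tr τ x ∈ P.asIdeal ↔ x ∈ P.asIdeal := by
  rw [← mem_iff hP, ← mem_iff hP, neg_int D hγ, hfix]

theorem no_split {P P₁ P₂ : HeightOneSpectrum (𝓞 K)} (hne : P₁ ≠ P₂)
    (hv : ∀ x : K, P₂.valuation K x = P₁.valuation K (τ x)) (hP : P = P₁ ∨ P = P₂)
    (ht : ∀ x : 𝓞 K, tr τ x ∈ P.asIdeal ↔ x ∈ P.asIdeal) : False := by
  have hm : ∀ x : 𝓞 K, x ∈ P₂.asIdeal ↔ tr τ x ∈ P₁.asIdeal := by
    intro x
    rw [← HeightOneSpectrum.valuation_lt_one_iff_mem (K := K),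
      ← HeightOneSpectrum.valuation_lt_one_iff_mem (K := K)]
    have h := hv (x : K)
    rw [← tr_coe] at h
    change P₂.valuation K (x : K) < 1 ↔ P₁.valuation K ((tr τ x : 𝓞 K) : K) < 1
    rw [h]
  apply hne
  apply HeightOneSpectrum.ext
  rcases hP with rfl | rfl
  · ext x
    rw [hm, ht]
  · ext x
    obtain ⟨y, rfl⟩ := tr_surj τ x
    rw [← hm, ht]

end dict

end Pool.Agent.K3h72.E2
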