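import Pool.Agent.K3h72.E2.Base

/-! Project E2 (helper56), brick FINW. -/

set_option autoImplicit false

open NumberField IsDedekindDomain

noncomputable section

namespace Pool.Agent.K3h72.E2

open Pool.Agent.K3h30.RS Pool.Agent.K3h56.E2

/-- `H / K` is Galois with group the kernel of `χ` -/
theorem gal_ker {F H G K : Type} [Field F] [NumberField F] [Field H] [NumberField H] [Algebra F H]
    [CommGroup G] [Finite G] [MulSemiringAction G H] [IsGaloisGroup G F H] [Field K]
    [NumberField K] [Algebra F K] [Algebra K H] {τ : K ≃ₐ[F] K} {χ : G →* ℂˣ}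
    (D : Dict F H G K τ χ) : IsGaloisGroup χ.ker K H := by
  have hf : FaithfulSMul G H := (inferInstance : IsGaloisGroup G F H).faithful
  refine ⟨⟨fun {a b} hab => ?_⟩, ⟨fun g x y => ?_⟩, ⟨fun y hy => ?_⟩⟩
  · apply Subtype.ext
    exact hf.eq_of_smul_eq_smul hab
  · change (g : G) • (x • y) = x • ((g : G) • y)
    rw [Algebra.smul_def, Algebra.smul_def, smul_mul', D.one (g : G) g.2 x]
  · exact D.fix y fun g hg => hy ⟨g, hg⟩

/-- **FINW** -/
theorem t_FINW (hL : S_LOC) : S_FINW := by
  intro F H G K _ _ _ _ _ _ _ _ _ _ _ _ _ τ χ D v w hw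
  have := D.tower
  obtain ⟨P, hP⟩ := exists_above (F := K) w
  have hPv : Above {v} P := above_mid hw hP
  have hl := hL F K τ D.quad v
  constructor
  · intro hall
    by_contra hne
    obtain ⟨P0, hu, hv, -⟩ := hl.2 hne
    have hP0 : P = P0 := (hu P).1 hPv
    subst hP0
    obtain ⟨g, hg⟩ := D.ex
    obtain ⟨w', -, hw'⟩ := (Pool.Agent.K3h25.RS.t_TRANS F H G v w hw).1 g
    -- `w'` lies over `P`
    have hPw' : Above {P} w' := by
      rw [above_singleton]
      ext x
      rw [Ideal.mem_comap, ← HeightOneSpectrum.valuation_lt_one_iff_mem (K := H), hw']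
      have h1 : g • (algebraMap (𝓞 H) H (algebraMap (𝓞 K) (𝓞 H) x)) =
          algebraMap (𝓞 H) H (algebraMap (𝓞 K) (𝓞 H) (tr τ x)) := by
        rw [neg_int D hg]
        rfl
      rw [h1, HeightOneSpectrum.valuation_lt_one_iff_mem, mem_iff hP,
        ← HeightOneSpectrum.valuation_lt_one_iff_mem (K := K),
        ← HeightOneSpectrum.valuation_lt_one_iff_mem (K := K)]
      change P.valuation K ((tr τ x : 𝓞 K) : K) < 1 ↔ P.valuation K (x : K) < 1
      rw [tr_coe, ← hv]
    have := gal_ker D
    obtain ⟨n, hn⟩ := (Pool.Agent.K3h25.RS.t_TRANS K H χ.ker P w hP).2 w' hPw'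
    apply hg
    have hfix : Fixes (Sum.inr w : Place H) (g * (n : G)⁻¹) := by
      intro x
      have h2 : w.valuation H ((g * (n : G)⁻¹) • x) = w.valuation H x := by
        rw [mul_smul, ← hw', hn]
        change w.valuation H ((n : G) • ((n : G)⁻¹ • x)) = _
        rw [smul_inv_smul]
      change HeightOneSpectrum.adicAbv H w ((g * (n : G)⁻¹) • x) = HeightOneSpectrum.adicAbv H w x
      rw [HeightOneSpectrum.adicAbv_def, HeightOneSpectrum.adicAbv_def, h2]
    have h3 := hall _ hfix
    have h4 : χ (n : G) = 1 := n.2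
    rwa [map_mul, map_inv, h4, inv_one, mul_one] at h3
  · intro h γ hγ
    by_contra hne
    obtain ⟨P1, P2, hne', hu, hv, -⟩ := hl.1 h
    exact no_split hne' hv ((hu P).1 hPv) (tau_mem D hP hne (fixes_mem hγ))

end Pool.Agent.K3h72.E2
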