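import Pool.Agent.K3h72.E2.Base

/-! Project E2 (helper56), brick FROB. -/

set_option autoImplicit false

open NumberField IsDedekindDomain

noncomputable section

namespace Pool.Agent.K3h72.E2

open Pool.Agent.K3h30.RS Pool.Agent.K3h56.E2

/-- **FROB** -/
theorem t_FROB (hL : S_LOC) : S_FROB := by
  intro F H G K _ _ _ _ _ _ _ _ _ _ _ _ _ τ χ D v σ hsq hF
  have := D.tower
  obtain ⟨w, hw⟩ := (Pool.Agent.K3h25.RS.t_OVER F H v).1
  obtain ⟨P, hP⟩ := exists_above (F := K) w
  have hPv : Above {v} P := above_mid hw hP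
  have hl := hL F K τ D.quad v
  have hN := one_lt_norm v
  by_cases hs : χ σ = 1
  · have h1 : loc K v = 1 := by
      by_contra hne
      obtain ⟨P0, hu, -, h⟩ := hl.2 hne
      have hP0 : P = P0 := (hu P).1 hPv
      subst hP0
      rcases h with ⟨-, -, hn⟩ | ⟨-, hr, -⟩
      · have h2 : Ideal.absNorm P.asIdeal ≤ Ideal.absNorm v.asIdeal := by
          refine card_le P _ hN fun x => ?_
          have h3 := hF w hw (algebraMap (𝓞 K) (𝓞 H) x)
          have h4 : σ • algebraMap (𝓞 K) (𝓞 H) x -
              algebraMap (𝓞 K) (𝓞 H) x ^ (Ideal.absNorm v.asIdeal) ∈ w.asIdeal := by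
            rw [← HeightOneSpectrum.valuation_lt_one_iff_mem (K := H)]
            exact h3
          rw [one_int D hs, ← map_pow, ← map_sub, mem_iff hP] at h4
          have h5 := P.asIdeal.neg_mem h4
          rwa [neg_sub] at h5
        rw [hn] at h2
        nlinarith
      · exact not_ram hP hsq hr
    rw [h1, hs]
    simp
  · have h2 : ((χ σ : ℂˣ) : ℂ) = -1 := by
      have h3 : ((χ σ : ℂˣ) : ℂ) * ((χ σ : ℂˣ) : ℂ) = 1 := by
        rw [← Units.val_mul, D.sq σ, Units.val_one]
      rcases mul_self_eq_one_iff.1 h3 with h | h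
      · exact absurd (Units.ext h) hs
      · exact h
    have h3 : loc K v = -1 := by
      have hne : loc K v ≠ 1 := by
        intro h
        obtain ⟨P1, P2, hne, hu, hv, -⟩ := hl.1 h
        exact no_split hne hv ((hu P).1 hPv) (tau_mem D hP hs (frob_mem hF hw))
      obtain ⟨P0, hu, -, h⟩ := hl.2 hne
      have hP0 : P = P0 := (hu P).1 hPv
      subst hP0
      rcases h with ⟨h, -⟩ | ⟨-, hr, -⟩
      · exact h
      · exact (not_ram hP hsq hr).elim
    rw [h3, h2]
    simp

end Pool.Agent.K3h72.E2
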